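import Pool.Agent.Lib.MP_305fdd_al.F8.NL.MainNL
import Pool.Agent.Lib.MP_305fdd_al.F8.NL.MainWide

/-!
# MP_58b9bb_al: all lattices commensurable with a Euclidean Bianchi group

`result`: let `K = ℚ(√-d)`, `d = 1, 2, 3, 7, 11`, let `O_K` be its ring of integers and let `G` be a
group with a subgroup `G₁` of finite index which has an injective homomorphism to `PSL(2, ℂ)` whose
image is commensurable with the image of `SL(2, O_K)`. Then `G` is profinitely rigid in the absolute
sense. For `G₁ = G` these are all lattices of `PSL(2, ℂ)` which are commensurable in the wide sense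
with `PSL(2, O_K)`.
-/

set_option autoImplicit false

namespace Pool.Agent.Results.MP_58b9bb_al.CommensurableLattices

open Pool.Agent.MP_305fdd_al NumberField
open scoped MatrixGroups

/-- Let `K` be a quadratic field with a square root `w` of `-1`, `-2`, `-3`, `-7` or `-11`, and `i`
a homomorphism from its ring of integers to `ℂ`. Let `G` be a group, `G₁` a subgroup of finite index
and `f : G₁ → PSL(2, ℂ)` an injective homomorphism whose image is commensurable with the image of
`SL(2, O_K)`. Then `G` is profinitely rigid in the absolute sense. -/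
theorem result (K : Type) [Field K] [NumberField K] (hK : Module.finrank ℚ K = 2) (w : K)
    (hw : w ^ 2 = -1 ∨ w ^ 2 = -2 ∨ w ^ 2 = -3 ∨ w ^ 2 = -7 ∨ w ^ 2 = -11)
    (i : 𝓞 K →+* ℂ) (G : Type) [Group G] (G₁ : Subgroup G) (hG : G₁.FiniteIndex)
    (f : G₁ →* PSL(2, ℂ)) (hf : Function.Injective f)
    (hc : Subgroup.Commensurable f.range (Cong.toPSL i).range) : ProfinitelyRigid G :=
  F8.NL.rigid_wide F8.NL.m_Rsrf F8.NL.m_Uend K hK w hw i G G₁ hG f hf hc

end Pool.Agent.Results.MP_58b9bb_al.CommensurableLattices
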