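import Pool.Agent.Lib.MP_305fdd_al.VFib.Fam2
import Pool.Agent.Lib.MP_305fdd_al.LF.P.c5
import Pool.Agent.Lib.MP_305fdd_al.LF.P.c5N

/-!
# MP_58b9bb_al: Kleinian groups with a normal free subgroup of rank two

A Kleinian group of finite covolume with a normal subgroup isomorphic to the free group `F₂` of rank two
acts faithfully on this subgroup; so it is the full preimage in `Aut(F₂)` of a subgroup `D` of
`GL(2, ℤ) = Out(F₂)`. This `D` contains a matrix `B` with determinant one and `3 ≤ |tr B|`, and the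
powers of `B` have finite index in `D`. The theorem describes the finitely presented groups with
separable finitely generated subgroups which have the same finite quotients as such a preimage.
-/

set_option autoImplicit false

namespace Pool.Agent.Results.MP_58b9bb_al.NormalFreeSubgroup

open Pool.Agent.MP_305fdd_al

/-- locally extended residually finite: every finitely generated subgroup is an intersection of
subgroups of finite index -/
def LERF (G : Type) [Group G] : Prop :=
  ∀ H : Subgroup G, H.FG → ∀ x : G, x ∉ H → ∃ U : Subgroup G, U.FiniteIndex ∧ H ≤ U ∧ x ∉ U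

/-- the exponent sum of the generator `i` -/
def expSum (i : Fin 2) : FreeGroup (Fin 2) →* Multiplicative ℤ :=
  FreeGroup.lift fun k => Multiplicative.ofAdd (if k = i then 1 else 0)

/-- the matrix through which an automorphism of the free group of rank two acts on `ℤ ^ 2` -/
def abMat (β : MulAut (FreeGroup (Fin 2))) : Matrix (Fin 2) (Fin 2) ℤ :=
  Matrix.of fun i j => Multiplicative.toAdd (expSum i (β (FreeGroup.of j)))

/-- the greatest `m` such that the matrix is scalar modulo `m` (`0` if the matrix is scalar) -/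
def content (A : Matrix (Fin 2) (Fin 2) ℤ) : ℕ :=
  Nat.gcd (Int.gcd (A 0 1) (A 1 0)) (Int.natAbs (A 0 0 - A 1 1))

theorem abMat_eq (β : MulAut (FreeGroup (Fin 2))) : abMat β = (F2X.AM β).val := by
  have h : ∀ (w : FreeGroup (Fin 2)) (i : Fin 2),
      Multiplicative.toAdd (expSum i w) = F2X.vec w i := by
    intro w i
    let g : FreeGroup (Fin 2) →* Multiplicative ℤ :=
      (AddMonoidHom.toMultiplicative (Pi.evalAddMonoidHom (fun _ : Fin 2 => ℤ) i)).comp F2X.abh
    have h1 : expSum i = g := by
      ext k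
      show Multiplicative.toAdd (expSum i (FreeGroup.of k)) = F2X.vec (FreeGroup.of k) i
      rw [F2X.vec_of, Pi.single_apply]
      unfold expSum
      rw [FreeGroup.lift_apply_of]
      show (if k = i then (1 : ℤ) else 0) = _
      simp only [eq_comm]
    exact congrArg Multiplicative.toAdd (DFunLike.congr_fun h1 w)
  ext i j
  exact h _ _

theorem mem_iff (D : Subgroup (GL (Fin 2) ℤ)) (β : MulAut (FreeGroup (Fin 2))) :
    (∃ X ∈ D, X.val = abMat β) ↔ F2X.AM β ∈ D := by
  rw [abMat_eq]
  constructor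
  · rintro ⟨X, hX, h⟩
    rw [← Units.ext h]
    exact hX
  · intro h
    exact ⟨_, h, rfl⟩

/-- the group of the automorphisms of the free group of rank two whose matrix lies in `D` -/
def preimage (D : Subgroup (GL (Fin 2) ℤ)) : Subgroup (MulAut (FreeGroup (Fin 2))) where
  carrier := {β | ∃ X ∈ D, X.val = abMat β}
  mul_mem' := fun {a b} ha hb => by
    rw [Set.mem_setOf_eq, mem_iff] at ha hb ⊢
    rw [map_mul]
    exact mul_mem ha hb
  one_mem' := by
    rw [Set.mem_setOf_eq, mem_iff, map_one]
    exact one_mem D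
  inv_mem' := fun {a} ha => by
    rw [Set.mem_setOf_eq, mem_iff] at ha ⊢
    rw [map_inv]
    exact inv_mem ha

theorem preimage_eq (D : Subgroup (GL (Fin 2) ℤ)) : preimage D = VFib.Pre D := by
  ext β
  exact mem_iff D β

/-- the images of `D'` and of `D` in `GL(2, ℤ / m)` are conjugate, for every positive integer `m` -/
def LocallyConjugate (D' D : Subgroup (GL (Fin 2) ℤ)) : Prop :=
  ∀ m : ℕ, 0 < m → ∃ M : GL (Fin 2) (ZMod m),
    (D'.map (Matrix.GeneralLinearGroup.map (Int.castRingHom (ZMod m)))).map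
      (MulAut.conj M).toMonoidHom =
    D.map (Matrix.GeneralLinearGroup.map (Int.castRingHom (ZMod m)))

theorem conj_of_normalizer {B X : GL (Fin 2) ℤ} (hd : B.val.det = 1) (ht : 3 ≤ |B.val.trace|)
    (hX : X ∈ Subgroup.normalizer (Subgroup.zpowers B : Set (GL (Fin 2) ℤ))) : X * B * X⁻¹ = B ∨ X * B * X⁻¹ = B⁻¹ := by
  rw [Subgroup.mem_normalizer_iff] at hX
  obtain ⟨k, hk⟩ := Subgroup.mem_zpowers_iff.1 ((hX B).1 (Subgroup.mem_zpowers B))
  have h1 : X * (X⁻¹ * B * X) * X⁻¹ ∈ Subgroup.zpowers B := by
    have h2 : X * (X⁻¹ * B * X) * X⁻¹ = B := by group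
    rw [h2]
    exact Subgroup.mem_zpowers B
  obtain ⟨l, hl⟩ := Subgroup.mem_zpowers_iff.1 ((hX (X⁻¹ * B * X)).2 h1)
  have h3 : B ^ (k * l) = B ^ (1 : ℤ) := by
    rw [zpow_mul, hk, conj_zpow, hl, zpow_one]
    group
  have h4 : k * l = 1 := VFib.hyp_zinj hd ht h3
  rcases Int.eq_one_or_neg_one_of_mul_eq_one h4 with h5 | h5
  · left
    rw [← hk, h5, zpow_one]
  · right
    rw [← hk, h5, zpow_neg, zpow_one]

theorem normalizer_of_conj {B X : GL (Fin 2) ℤ} (h : X * B * X⁻¹ = B ∨ X * B * X⁻¹ = B⁻¹) :
    X ∈ Subgroup.normalizer (Subgroup.zpowers B : Set (GL (Fin 2) ℤ)) := by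
  have h1 : (Subgroup.zpowers B).map (MulAut.conj X).toMonoidHom = Subgroup.zpowers B := by
    rw [MonoidHom.map_zpowers]
    show Subgroup.zpowers (X * B * X⁻¹) = _
    rcases h with h | h
    · rw [h]
    · rw [h, Subgroup.zpowers_inv]
  rw [Subgroup.mem_normalizer_iff]
  intro Y
  constructor
  · intro hY
    rw [← h1]
    exact ⟨Y, hY, rfl⟩
  · intro hY
    rw [← h1] at hY
    obtain ⟨Z, hZ, hZ2⟩ := hY
    have h2 : Z = Y := (MulAut.conj X).injective hZ2
    rw [← h2]
    exact hZ

/-- Let `D` be a subgroup of `GL(2, ℤ)` and `B` a matrix in `D` with determinant one and `3 ≤ |tr B|`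
whose powers have finite index in `D`; let `Γ` be the preimage of `D` in the automorphism group of the
free group of rank two. There is a finite set `S` of subgroups of `GL(2, ℤ)` with the following
properties.

Every finitely presented LERF group `Λ` with the same finite quotients as `Γ` is isomorphic to the
preimage of some `D'` in `S`.

Every `D'` in `S` is locally conjugate to `D`, and contains a matrix `B'` with the determinant, the
trace and the content of `B`, whose powers have in `D'` the index of the powers of `B` in `D`; if the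
elements of `D` with determinant one are the elements of `D` which commute with `B` (so that `Γ`
preserves the orientation) then the same holds for `D'` and `B'`.

If `D` is the normaliser of the group of the powers of `B` and every matrix in `GL(2, ℤ)` with the
determinant, the trace and the content of `B` is conjugate to `B`, then `S = {D}`, so `Λ` is
isomorphic to `Γ`.

Also `S = {D}` if `D` is generated by `J = [[1, 0], [0, -1]]` and `K = [[a, m u], [-m v, -a]]` and
`B = J K`, where `u` and `v` are coprime, `u v` is odd, `a ^ 2 - u v m ^ 2 = 1` and `u v` divides `a - 1` (for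
example `a = 2 x ^ 2 - 1` and `m = 2 x y` for any solution of `x ^ 2 - u v y ^ 2 = 1`). -/
theorem result (D : Subgroup (GL (Fin 2) ℤ)) (B : GL (Fin 2) ℤ) (hB : B ∈ D)
    (hd : B.val.det = 1) (ht : 3 ≤ |B.val.trace|) (hi : (Subgroup.zpowers B).relIndex D ≠ 0) :
    ∃ S : Set (Subgroup (GL (Fin 2) ℤ)), S.Finite ∧
      (∀ (Λ : Type) [Group Λ], Group.IsFinitelyPresented Λ → LERF Λ →
        SameFiniteQuotients Λ (preimage D) → ∃ D' ∈ S, Nonempty (Λ ≃* preimage D')) ∧
      (∀ D' ∈ S, LocallyConjugate D' D ∧ ∃ B' ∈ D', B'.val.det = 1 ∧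
        B'.val.trace = B.val.trace ∧ content B'.val = content B.val ∧
        (Subgroup.zpowers B').relIndex D' = (Subgroup.zpowers B).relIndex D ∧
        ((∀ X ∈ D, X.val.det = 1 ↔ X * B = B * X) →
          ∀ X ∈ D', X.val.det = 1 ↔ X * B' = B' * X)) ∧
      (D = Subgroup.normalizer (Subgroup.zpowers B : Set (GL (Fin 2) ℤ)) →
        (∀ A : GL (Fin 2) ℤ, A.val.det = 1 → A.val.trace = B.val.trace →
          content A.val = content B.val → IsConj A B) → S = {D}) ∧
      (∀ (a m u v : ℤ) (J K : GL (Fin 2) ℤ), IsCoprime u v → ¬ (2 : ℤ) ∣ u * v →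
        a ^ 2 - u * v * m ^ 2 = 1 → u * v ∣ a - 1 → J.val = !![1, 0; 0, -1] →
        K.val = !![a, m * u; -(m * v), -a] → D = Subgroup.closure {J, K} → B = J * K →
        S = {D}) := by
  by_cases hr : ∀ (Λ : Type) [Group Λ], Group.IsFinitelyPresented Λ → LERF Λ →
        SameFiniteQuotients Λ (preimage D) → Nonempty (Λ ≃* preimage D)
  · refine ⟨{D}, Set.finite_singleton D, fun Λ _ hfp hΛ h => ⟨D, rfl, hr Λ hfp hΛ h⟩, ?_,
      fun _ _ => rfl, fun _ _ _ _ _ _ _ _ _ _ _ _ _ _ => rfl⟩
    · intro D' hD'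
      rw [Set.mem_singleton_iff.1 hD']
      refine ⟨fun m _ => ⟨1, ?_⟩, B, hB, hd, rfl, rfl, rfl, fun h => h⟩
      ext Z
      constructor
      · rintro ⟨Y, hY, rfl⟩
        have h1 : (MulAut.conj (1 : GL (Fin 2) (ZMod m))).toMonoidHom Y = Y := by
          show 1 * Y * 1⁻¹ = Y
          rw [one_mul, inv_one, mul_one]
        rw [h1]
        exact hY
      · intro hZ
        refine ⟨Z, hZ, ?_⟩
        show 1 * Z * 1⁻¹ = Z
        rw [one_mul, inv_one, mul_one]
  · obtain ⟨S, hS, h1, h2⟩ := VFib.genus_fin hB hd ht hi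
    refine ⟨S, hS, fun Λ _ hfp hΛ h => ?_, fun D' hD' => ?_, fun k1 k2 => absurd ?_ hr,
      fun a m u v J K huv hodd hpell ha hJ hK hD hBJ => absurd ?_ hr⟩
    · rw [preimage_eq] at h
      obtain ⟨D', hD', ⟨e⟩⟩ := h2 Λ hfp hΛ h
      refine ⟨D', hD', ?_⟩
      rw [preimage_eq]
      exact ⟨e⟩
    · obtain ⟨k1, B', k2, k3, k4, k5, k6⟩ := h1 D' hD'
      refine ⟨k1, B', k2, k3, k4, k5, k6, fun hO => ?_⟩
      have ht' : 3 ≤ |B'.val.trace| := by rw [k4]; exact ht
      have hi' : (Subgroup.zpowers B').relIndex D' ≠ 0 := by rw [k6]; exact hi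
      have hc : ∀ X C : GL (Fin 2) ℤ, X * C * X⁻¹ = C ↔ X * C = C * X := fun X C =>
        mul_inv_eq_iff_eq_mul
      intro X hX
      rw [← hc]
      exact VFib.orient hB k2 hd ht k3 ht' (fun Y hY => VFib.conj_hyp hd ht hB hi hY)
        (fun Y hY => VFib.conj_hyp k3 ht' k2 hi' hY) k1
        (fun Y hY => by rw [hc]; exact hO Y hY) X hX
    · intro Λ _ hfp hΛ h
      rw [preimage_eq] at h ⊢
      exact VFib.rigid_N hB hd ht hi
        (fun X hX => by rw [k1]; exact normalizer_of_conj hX)
        (fun A h1 h2 h3 => isConj_iff.1 (k2 A h1 h2 h3)) Λ hfp hΛ h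
    · intro Λ _ hfp hΛ h
      rw [preimage_eq] at h ⊢
      subst hD hBJ
      have htr : (J * K).val.trace = 2 * a := by
        rw [Units.val_mul, hJ, hK, Matrix.mul_fin_two, Matrix.trace_fin_two_of]
        ring
      rw [htr] at ht
      have hm : m ≠ 0 := by
        intro h0
        rw [h0] at hpell
        have h4 : a * a = 1 := by linarith
        rcases mul_self_eq_one_iff.1 h4 with h5 | h5
        · rw [h5] at ht
          norm_num at ht
        · rw [h5] at ht
          norm_num at ht
      exact VFib.gf_rigid a m u v hpell hm ht huv hodd ha J K hJ hK Λ hfp hΛ h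

/-- An example: let `N` be the normaliser in `GL(2, ℤ)` of the group of the powers of
`[[4, 3], [1, 1]]`. Its preimage in `Aut(F₂)` is isomorphic to all finitely presented LERF groups with the
same finite quotients. -/
theorem trace_five (B : GL (Fin 2) ℤ) (hB : B.val = !![4, 3; 1, 1]) (Λ : Type) [Group Λ]
    (hfp : Group.IsFinitelyPresented Λ) (hΛ : LERF Λ)
    (h : SameFiniteQuotients Λ (preimage (Subgroup.normalizer (Subgroup.zpowers B : Set (GL (Fin 2) ℤ))))) :
    Nonempty (Λ ≃* preimage (Subgroup.normalizer (Subgroup.zpowers B : Set (GL (Fin 2) ℤ)))) := by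
  have hd : B.val.det = 1 := by rw [hB]; decide
  have ht : 3 ≤ |B.val.trace| := by rw [hB]; decide
  have hBN : B ∈ Subgroup.normalizer (Subgroup.zpowers B : Set (GL (Fin 2) ℤ)) :=
    Subgroup.le_normalizer (Subgroup.mem_zpowers B)
  have hi := VFib.nrm_index hBN hd ht fun X hX => conj_of_normalizer hd ht hX
  obtain ⟨S, -, h1, -, h2, -⟩ := result _ B hBN hd ht hi
  have hS := h2 rfl fun A hA1 hA2 hA3 => by
    rw [isConj_iff]
    obtain ⟨X, hX⟩ := LF.p_c5N LF.p_c5 1 le_rfl A (by rw [hA1]; decide)
      (by rw [hA2, hB]; decide) (by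
        show content A.val = content (LF.C5 ^ 1)
        rw [hA3, hB]
        decide)
    refine ⟨X, ?_⟩
    have h3 : X * A = B * X := by
      apply Units.ext
      rw [Units.val_mul, Units.val_mul, hX, hB]
      rw [pow_one]
      rfl
    rw [h3, mul_inv_cancel_right]
  obtain ⟨D', hD', h3⟩ := h1 Λ hfp hΛ h
  rw [hS] at hD'
  rw [Set.mem_singleton_iff.1 hD'] at h3
  exact h3

end Pool.Agent.Results.MP_58b9bb_al.NormalFreeSubgroup
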