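import Pool.Agent.Lib.MP_305fdd_al.Reg.Main

/-!
# MP_58b9bb_al: absolute regularity of the fibre classes

`G` and `H` are groups, `H` is finitely generated, and `Φ` is an isomorphism of their profinite completions.
A class `d : G → ℤ` is a fibre class if on some subgroup `D` of finite index it is a multiple of a fibration:
`D` is isomorphic to a subgroup of finite index of some `F ⋊ ℤ`, `F` free of finite rank, the generator of `ℤ`
acting by a positive automorphism, or of the group `F₂ ⋊ ℤ` of a hyperbolic once-punctured torus bundle, and
the fibration is the projection to `ℤ`.

Let some nonzero multiple of the class `c : G → ℤ` be a sum of fibre classes. Then `Φ` maps `c` to a class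
`c' : H → ℤ`. If `c` is onto, `c'` is onto, and the kernels of `c` and `c'` have corresponding images in all
finite quotients.
-/

set_option autoImplicit false

namespace Pool.Agent.Results.MP_58b9bb_al.Regularity

open Pool.Agent.MP_305fdd_al.Reg

theorem result (G H : Type) [Group G] [Group H] [Group.FG H] (Φ : ProIso G H)
    (c : G →* Multiplicative ℤ) (j : ℤ) (hj : j ≠ 0)
    (hc : c ^ j ∈ Subgroup.closure {d : G →* Multiplicative ℤ | FibreClass d}) :
    ∃ c' : H →* Multiplicative ℤ, Φ.Matches c c' ∧
      (Function.Surjective c → Function.Surjective c' ∧ Φ.SameImages c.ker c'.ker) :=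
  class_transfer Φ c j hj hc

end Pool.Agent.Results.MP_58b9bb_al.Regularity
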