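import Pool.Agent.Lib.MP_305fdd_al.VFib.Quot

/-!
# MP_58b9bb_al: virtually fibred groups among the finitely presented groups with separable subgroups

A Kleinian group `Γ` of finite covolume has a normal subgroup `Γ₀` of finite index with a homomorphism
onto `ℤ` with finitely generated kernel (Agol); `Γ` acts on the homomorphisms `Γ₀ → ℤ` by conjugation.
-/

set_option autoImplicit false

namespace Pool.Agent.Results.MP_58b9bb_al.VirtualFibres

open Pool.Agent.MP_305fdd_al

/-- locally extended residually finite: every finitely generated subgroup is an intersection of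
subgroups of finite index -/
def LERF (G : Type) [Group G] : Prop :=
  ∀ H : Subgroup G, H.FG → ∀ x : G, x ∉ H → ∃ U : Subgroup G, U.FiniteIndex ∧ H ≤ U ∧ x ∉ U

/-- Conjugation with the elements of `Γ` isolates the homomorphism `c : Γ₀ → ℤ`: there are elements
`g₁, …, g_k` of `Γ` and integers `n₁, …, n_k` such that `n₁ (f ∘ conj g₁) + … + n_k (f ∘ conj g_k)`
vanishes on the kernel of `c` for every homomorphism `f : Γ₀ → ℤ`, and is not zero for `f = c`
(here `ℤ` is written multiplicatively). -/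
def Isolated {Γ : Type} [Group Γ] (Γ₀ : Subgroup Γ) [Γ₀.Normal]
    (c : Γ₀ →* Multiplicative ℤ) : Prop :=
  ∃ (k : ℕ) (g : Fin k → Γ) (n : Fin k → ℤ),
    (∀ (f : Γ₀ →* Multiplicative ℤ) (x : Γ₀), c x = 1 →
      ∏ i, f (MulAut.conjNormal (g i) x) ^ n i = 1) ∧
    ∃ x : Γ₀, ∏ i, c (MulAut.conjNormal (g i) x) ^ n i ≠ 1

/-- Let `Γ₀` be a normal subgroup of finite index of `Γ` and let `c` be a homomorphism of `Γ₀` onto
`ℤ` with finitely generated kernel which is isolated by conjugation with the elements of `Γ`. Every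
finitely presented LERF group `Λ` with the same finite quotients as `Γ` has a normal subgroup `Λ₀` and a
homomorphism `χ` of `Λ₀` onto `ℤ` such that

* `Λ / Λ₀` is isomorphic to `Γ / Γ₀`,
* `Λ₀` has the same finite quotients as `Γ₀`,
* the kernel of `χ` is finitely generated and has the same finite quotients as the kernel of `c`,
* the kernel of `χ` is isomorphic to the kernel of `c` if the latter is profinitely rigid,
* if the kernel of `c` is normal in `Γ` then the kernel of `χ` is normal in `Λ`, and `Λ / ker χ` and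
  `Γ / ker c` have the same finite quotients. -/
theorem result (Γ : Type) [Group Γ] (Γ₀ : Subgroup Γ) [Γ₀.Normal] [Γ₀.FiniteIndex]
    (c : Γ₀ →* Multiplicative ℤ) (hc : Function.Surjective c) (hfg : c.ker.FG)
    (hi : Isolated Γ₀ c) (Λ : Type) [Group Λ] (hfp : Group.IsFinitelyPresented Λ) (hΛ : LERF Λ)
    (h : SameFiniteQuotients Λ Γ) :
    ∃ (Λ₀ : Subgroup Λ) (_ : Λ₀.Normal) (χ : Λ₀ →* Multiplicative ℤ),
      Function.Surjective χ ∧ Nonempty (Λ ⧸ Λ₀ ≃* Γ ⧸ Γ₀) ∧ SameFiniteQuotients Λ₀ Γ₀ ∧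
      χ.ker.FG ∧ SameFiniteQuotients χ.ker c.ker ∧
      (ProfinitelyRigid c.ker → Nonempty (χ.ker ≃* c.ker)) ∧
      ∀ _ : (c.ker.map Γ₀.subtype).Normal, ∃ _ : (χ.ker.map Λ₀.subtype).Normal,
        SameFiniteQuotients (Λ ⧸ χ.ker.map Λ₀.subtype) (Γ ⧸ c.ker.map Γ₀.subtype) := by
  obtain ⟨k, g, n, h1, h2⟩ := hi
  obtain ⟨Λ₀, hn, χ, k1, k2, k3, k4, k5, k6, k7⟩ :=
    VFib.main_quot Γ₀ c hc hfg k g n h1 h2 Λ hfp hΛ h
  exact ⟨Λ₀, hn, χ, k2, k1, k4, k3, k5, k6, k7⟩

/-- If every homomorphism `Γ₀ → ℤ` vanishes on the kernel of `c` (that is, the first Betti number of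
`Γ₀` is one) then `c` is isolated. -/
theorem isolated_of_betti_one {Γ : Type} [Group Γ] (Γ₀ : Subgroup Γ) [Γ₀.Normal]
    (c : Γ₀ →* Multiplicative ℤ) (hc : Function.Surjective c)
    (hb : ∀ f : Γ₀ →* Multiplicative ℤ, c.ker ≤ f.ker) : Isolated Γ₀ c := by
  refine ⟨1, fun _ => 1, fun _ => 1, fun f x hx => ?_, ?_⟩
  · rw [Fin.prod_univ_one, map_one, MulAut.one_apply, zpow_one]
    exact hb f hx
  · obtain ⟨x, hx⟩ := hc (Multiplicative.ofAdd 1)
    refine ⟨x, ?_⟩
    rw [Fin.prod_univ_one, map_one, MulAut.one_apply, zpow_one, hx]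
    intro h
    exact absurd (congrArg Multiplicative.toAdd h) (by simp)

end Pool.Agent.Results.MP_58b9bb_al.VirtualFibres
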